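import Pool.Agent.Lib.MP_39c2b7_co.Interfaces

/-!
Module MATCH of project SA (MP_39c2b7_co): matching entries are realized together.
-/

namespace StrongArb.H81

open StrongArb

theorem eqB_eq : ∀ (l m : List ℕ), eqB l m = true → l = m
  | [], [], _ => rfl
  | [], _ :: _, h => by simp [eqB] at h
  | _ :: _, [], h => by simp [eqB] at h
  | a :: s, b :: t, h => by
      unfold eqB at h
      rw [Bool.and_eq_true] at h
      rw [Nat.eq_of_beq_eq_true h.1, eqB_eq s t h.2]

theorem unrotate (hL : LinkApi) {V : Type} {G : SimpleGraph V} {v : V} {l : List V} {n : ℕ}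
    (h : IsLink G v (l.rotate n)) : IsLink G v l := by
  have h1 := hL.rotate V G v _ (l.length - n % l.length) h
  rw [List.rotate_rotate] at h1
  rcases Nat.eq_zero_or_pos l.length with h0 | h0
  · have : l = [] := List.length_eq_zero_iff.1 h0
    subst this
    simpa using h
  · have hlt : n % l.length < l.length := Nat.mod_lt _ h0
    have e : l.rotate (n + (l.length - n % l.length)) = l := by
      rw [← List.rotate_mod]
      have : (n + (l.length - n % l.length)) % l.length = 0 := by
        rw [Nat.add_mod]
        rcases Nat.eq_zero_or_pos (n % l.length) with h2 | h2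
        · rw [h2]; simp
        · rw [Nat.mod_eq_of_lt (show l.length - n % l.length < l.length by omega)]
          rw [show n % l.length + (l.length - n % l.length) = l.length by omega, Nat.mod_self]
      rw [this, List.rotate_zero]
    rw [e] at h1
    exact h1

theorem dihB_link (hL : LinkApi) {V : Type} {G : SimpleGraph V} {v : V} (ψ : ℕ → V)
    {l m : List ℕ} (hd : dihB l m = true) (h : IsLink G v (m.map ψ)) : IsLink G v (l.map ψ) := by
  unfold dihB at hd
  rw [List.any_eq_true] at hd
  obtain ⟨i, _, hi⟩ := hd
  rw [Bool.or_eq_true] at hi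
  rcases hi with hi | hi
  · have e := eqB_eq _ _ hi
    rw [← e, List.map_rotate] at h
    exact unrotate hL h
  · have e := eqB_eq _ _ hi
    rw [← e, List.map_rotate] at h
    have h2 := unrotate hL h
    rw [List.map_reverse] at h2
    have h3 := hL.reverse V G v _ h2
    rwa [List.reverse_reverse] at h3

/-- Module MATCH (the name in lower case is a keyword, hence `matchS`). -/
theorem matchS (hL : LinkApi) : MatchStatement := by
  intro V G X E F ι hm hF hE
  obtain ⟨ψ, hψ⟩ := hE
  apply hF
  refine ⟨fun a => ψ (ι.getD a 0), ?_⟩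
  intro f hf
  unfold matchB at hm
  rw [List.all_eq_true] at hm
  have h1 := hm f hf
  rw [List.any_eq_true] at h1
  obtain ⟨e, he, h2⟩ := h1
  rw [Bool.and_eq_true] at h2
  have e1 := Nat.eq_of_beq_eq_true h2.1
  obtain ⟨hX, hlink⟩ := hψ e he
  have h3 := dihB_link hL ψ h2.2 hlink
  rw [List.map_map] at h3
  refine ⟨?_, ?_⟩
  · show ψ (ι.getD f.1 0) ∈ X
    rw [← e1]; exact hX
  · show IsLink G (ψ (ι.getD f.1 0)) _
    rw [← e1]; exact h3

end StrongArb.H81
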